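import Pool.Agent.TH553.CZ.Cen

/-!
# The Sato-Tate conjecture: lifting along central quotients

`A` is an abelian variety over a number field `K`, `G = ST(A)` its Sato-Tate group and `x_v ∈ G` an
element of the class of the prime `v` (any element at the finitely many primes of bad reduction; this
changes the `L`-functions below by finitely many factors without zeros and poles in `Re s > 0`).  Let
`Z` be a central subgroup of `G`, for instance `{1, -1}`.  Suppose that the classes of the `x_v` are
equidistributed modulo `Z`: the averages of the continuous class functions which are invariant under the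
translations by `Z` tend to their Haar integrals.  For `K = ℚ`, `G = USp(2g)` and `Z = {1, -1}` these are
the class functions generated by the representations of even degree, for instance by the coefficients
`a_i(A)(p)` with even `i` and the products of an even number of `a_i(A)(p)` with odd `i`.

The theorem passes from `G / Z` to `G`.  The `L`-functions of the irreducible representations `π` of `G`
of dimension at least two which are not trivial on `Z` (odd symmetric powers, the spin representations,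
...), and all their twists by arbitrary complex numbers of absolute value one, satisfy
`|log |L(1 + iτ + ε)|| ≤ (∫ |tr π| + η) log (1/ε)` near the edge, with `∫ |tr π| < 1`; so local meromorphic
continuations, with arbitrary zeros and poles, have order `0` on the line `Re s = 1`, and the `x_v` are
equidistributed in `G` if these exist and if the characters of `G` of dimension one have averages zero
(there are none if `G = USp(2g)`; in general these are Hecke characters).
-/

set_option autoImplicit false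

namespace Pool.Agent.Results.MP_753a9c_nt.CentralQuotient

open NumberField IsDedekindDomain Filter Topology MeasureTheory

section

variable {K : Type} [Field K] [NumberField K]

/-- The average of `φ` over the primes of `K` of norm at most `N`. -/
noncomputable def avg (φ : HeightOneSpectrum (𝓞 K) → ℂ) (N : ℕ) : ℂ :=
  (∑ᶠ v : {v : HeightOneSpectrum (𝓞 K) // Ideal.absNorm v.asIdeal ≤ N}, φ v.1) /
    (Nat.card {v : HeightOneSpectrum (𝓞 K) // Ideal.absNorm v.asIdeal ≤ N} : ℂ)

/-- The classes of the `x v` are equidistributed for `μ` modulo `Z`: the averages of all continuous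
class functions which are invariant under `Z` tend to their integrals. -/
def EquidistributedModulo {G : Type} [Group G] [TopologicalSpace G] [MeasurableSpace G]
    (Z : Subgroup G) (x : HeightOneSpectrum (𝓞 K) → G) (μ : Measure G) : Prop :=
  ∀ f : G → ℂ, Continuous f → (∀ g h, f (h * g * h⁻¹) = f g) → (∀ z ∈ Z, ∀ g, f (z * g) = f g) →
    Tendsto (avg fun v => f (x v)) atTop (𝓝 (∫ g, f g ∂μ))

/-- The classes of the `x v` are equidistributed for `μ`. -/
def Equidistributed {G : Type} [Group G] [TopologicalSpace G] [MeasurableSpace G]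
    (x : HeightOneSpectrum (𝓞 K) → G) (μ : Measure G) : Prop :=
  ∀ f : G → ℂ, Continuous f → (∀ g h, f (h * g * h⁻¹) = f g) →
    Tendsto (avg fun v => f (x v)) atTop (𝓝 (∫ g, f g ∂μ))

end

section

variable {G : Type} [Group G] [TopologicalSpace G] {n : ℕ}

/-- The character of `π`. -/
noncomputable def tr (π : G →* Matrix.unitaryGroup (Fin n) ℂ) (g : G) : ℂ :=
  (π g : Matrix (Fin n) (Fin n) ℂ).trace

/-- The unitary representation `π` is continuous and irreducible: only the scalars commute with all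
matrices `π g`. -/
structure IsIrreducible (π : G →* Matrix.unitaryGroup (Fin n) ℂ) : Prop where
  continuous : Continuous π
  schur : ∀ A : Matrix (Fin n) (Fin n) ℂ, (∀ g, (π g : Matrix (Fin n) (Fin n) ℂ) * A = A * π g) →
    ∃ c : ℂ, A = c • (1 : Matrix (Fin n) (Fin n) ℂ)

end

section

variable {K : Type} [Field K] [NumberField K] {G : Type} [Group G] {n : ℕ}

/-- The Euler product `L(π ⊗ c, s) = ∏_v det(1 - q_v^{-s} c_v π(x_v))⁻¹`, for complex numbers `c_v` of
absolute value one (for instance the values of a unitary Hecke character). -/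
noncomputable def LFun (π : G →* Matrix.unitaryGroup (Fin n) ℂ) (x : HeightOneSpectrum (𝓞 K) → G)
    (c : HeightOneSpectrum (𝓞 K) → Circle) (s : ℂ) : ℂ :=
  ∏' v : HeightOneSpectrum (𝓞 K), (Matrix.det (1 - ((Ideal.absNorm v.asIdeal : ℂ) ^ (-s)) •
    ((c v : ℂ) • (π (x v) : Matrix (Fin n) (Fin n) ℂ))))⁻¹

/-- `log |L(π ⊗ c, 1 + iτ + ε)| / log (1/ε)`. -/
noncomputable def size (π : G →* Matrix.unitaryGroup (Fin n) ℂ) (x : HeightOneSpectrum (𝓞 K) → G)
    (c : HeightOneSpectrum (𝓞 K) → Circle) (τ ε : ℝ) : ℝ :=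
  Real.log ‖LFun π x c (1 + τ * Complex.I + ε)‖ / Real.log (1 / ε)

/-- `Λ` is a meromorphic continuation of `L(π ⊗ c, s)` to a neighbourhood of `1 + iτ`. -/
def IsContinuation (π : G →* Matrix.unitaryGroup (Fin n) ℂ) (x : HeightOneSpectrum (𝓞 K) → G)
    (c : HeightOneSpectrum (𝓞 K) → Circle) (τ : ℝ) (Λ : ℂ → ℂ) : Prop :=
  MeromorphicAt Λ (1 + τ * Complex.I) ∧
    ∀ᶠ s in 𝓝 ((1 : ℂ) + τ * Complex.I), (1 : ℝ) < s.re → Λ s = LFun π x c s

end

section Bridge

set_option linter.unusedSectionVars false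

open Pool.Agent.TH553.ST Pool.Agent.TH553.RS Pool.Agent.W540.BE Pool.Agent.TH553.CZ

variable {K : Type} [Field K] [NumberField K]

theorem avg_eq (g : HeightOneSpectrum (𝓞 K) → ℂ) : avg g = mn g := by
  funext N
  have hs : ∀ v, v ∈ upto K N ↔ Ideal.absNorm v.asIdeal ≤ N := fun v => mem_upto
  let e : {v : HeightOneSpectrum (𝓞 K) // Ideal.absNorm v.asIdeal ≤ N} ≃ (upto K N) :=
    Equiv.subtypeEquivRight fun v => (hs v).symm
  have hfin : Finite {v : HeightOneSpectrum (𝓞 K) // Ideal.absNorm v.asIdeal ≤ N} :=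
    Finite.of_equiv _ e.symm
  unfold avg mn
  have h1 : (∑ᶠ v : {v : HeightOneSpectrum (𝓞 K) // Ideal.absNorm v.asIdeal ≤ N}, g v.1) =
      ∑ v ∈ upto K N, g v := by
    rw [← Finset.sum_coe_sort, ← finsum_eq_sum_of_fintype, ← finsum_comp_equiv e]
    rfl
  have h2 : Nat.card {v : HeightOneSpectrum (𝓞 K) // Ideal.absNorm v.asIdeal ≤ N} =
      (upto K N).card := by
    rw [Nat.card_congr e, Nat.card_eq_fintype_card, Fintype.card_coe]
  rw [h1, h2, Complex.real_smul, div_eq_inv_mul]
  push_cast
  rfl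

variable {G : Type} [Group G] {n : ℕ} {π : G →* Matrix.unitaryGroup (Fin n) ℂ}
  {x : HeightOneSpectrum (𝓞 K) → G}

theorem LFun_eq (c : HeightOneSpectrum (𝓞 K) → Circle) :
    LFun π x c = L1 (Pool.Agent.TH553.CZ.tw π) fun v => (x v, c v) := rfl

theorem L1_one : LFun π x (fun _ => 1) = L1 π x := by
  funext s
  unfold LFun L1
  refine tprod_congr fun v => ?_
  rw [Circle.coe_one, one_smul]
  rfl

end Bridge

/-- **Lifting along a central quotient.**  Let `K` be a number field, `G` a compact group with Haar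
probability measure `μ`, `Z` a central subgroup and `x_v ∈ G` for the primes `v` of `K`, such that the
classes of the `x_v` are equidistributed modulo `Z`.

I.  Let `π` be an irreducible representation of `G` of dimension at least two and let `c_v` be complex
numbers of absolute value one.  Then `∫ |tr π| < 1`, and for every `τ`: `L(π ⊗ c, 1 + iτ + ε) ≠ 0` and
`|log |L(π ⊗ c, 1 + iτ + ε)|| ≤ (∫ |tr π| + η) log (1/ε)` for every `η > 0` and all small `ε > 0`, and every
meromorphic continuation of `L(π ⊗ c, s)` to a neighbourhood of `1 + iτ` has order `0` at `1 + iτ`.  If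
there is one for every `τ`, then the averages of `c_v tr π(x_v)` tend to `0`.

II.  Suppose that for every continuous homomorphism `ψ` from `G` to the complex numbers of absolute
value one which is not trivial on `Z` the averages of `ψ(x_v)` tend to `0`, and that for every
irreducible representation `π` of `G` of dimension at least two which is not trivial on `Z` and every
`τ` there is a meromorphic continuation of `L(π, s)` to a neighbourhood of `1 + iτ`.  Then the classes
of the `x_v` are equidistributed in `G`. -/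
theorem result (K : Type) [Field K] [NumberField K]
    (G : Type) [Group G] [TopologicalSpace G] [IsTopologicalGroup G] [CompactSpace G] [T2Space G]
    [MeasurableSpace G] [BorelSpace G] (μ : Measure G)
    [IsProbabilityMeasure μ] [μ.IsHaarMeasure]
    (Z : Subgroup G) (hZ : Z ≤ Subgroup.center G)
    (x : HeightOneSpectrum (𝓞 K) → G) (hx : EquidistributedModulo Z x μ) :
    (∀ (n : ℕ) (π : G →* Matrix.unitaryGroup (Fin n) ℂ), IsIrreducible π → 2 ≤ n →
      ∫ g, ‖tr π g‖ ∂μ < 1 ∧
      ∀ c : HeightOneSpectrum (𝓞 K) → Circle,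
        (∀ τ : ℝ, (∀ᶠ ε : ℝ in 𝓝[>] 0, LFun π x c (1 + τ * Complex.I + ε) ≠ 0) ∧
          (∀ η : ℝ, 0 < η → ∀ᶠ ε : ℝ in 𝓝[>] 0, |size π x c τ ε| ≤ ∫ g, ‖tr π g‖ ∂μ + η) ∧
          ∀ Λ : ℂ → ℂ, IsContinuation π x c τ Λ →
            meromorphicOrderAt Λ (1 + τ * Complex.I) = 0) ∧
        ((∀ τ : ℝ, ∃ Λ, IsContinuation π x c τ Λ) →
          Tendsto (avg fun v => c v * tr π (x v)) atTop (𝓝 0))) ∧
    ((∀ ψ : G →* Circle, Continuous ψ → (∃ z ∈ Z, ψ z ≠ 1) →
        Tendsto (avg fun v => ψ (x v)) atTop (𝓝 0)) →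
      (∀ (n : ℕ) (π : G →* Matrix.unitaryGroup (Fin n) ℂ), IsIrreducible π → 2 ≤ n →
        (∃ z ∈ Z, π z ≠ 1) → ∀ τ : ℝ, ∃ Λ, IsContinuation π x (fun _ => 1) τ Λ) →
      Equidistributed x μ) := by
  have hx' : Pool.Agent.TH553.CZ.LawZ Z x μ := by
    intro f h1 h2 h3
    rw [← avg_eq]
    exact hx f h1 h2 h3
  have key : ∀ (n : ℕ) (π : G →* Matrix.unitaryGroup (Fin n) ℂ), IsIrreducible π → 2 ≤ n →
      ∫ g, ‖tr π g‖ ∂μ < 1 ∧
      ∀ c : HeightOneSpectrum (𝓞 K) → Circle,
        (∀ τ : ℝ, (∀ᶠ ε : ℝ in 𝓝[>] 0, LFun π x c (1 + τ * Complex.I + ε) ≠ 0) ∧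
          (∀ η : ℝ, 0 < η → ∀ᶠ ε : ℝ in 𝓝[>] 0, |size π x c τ ε| ≤ ∫ g, ‖tr π g‖ ∂μ + η) ∧
          ∀ Λ : ℂ → ℂ, IsContinuation π x c τ Λ →
            meromorphicOrderAt Λ (1 + τ * Complex.I) = 0) ∧
        ((∀ τ : ℝ, ∃ Λ, IsContinuation π x c τ Λ) →
          Tendsto (avg fun v => c v * tr π (x v)) atTop (𝓝 0)) := by
    intro n π hπ hn
    have hlt : ∫ g, ‖tr π g‖ ∂μ < 1 :=
      Pool.Agent.TH553.CZ.int_abs_lt (μ := μ) hπ.continuous hπ.schur hn
    refine ⟨hlt, fun c => ?_⟩
    have hb : ∀ τ : ℝ, ∀ U : Ultrafilter ℝ, (U : Filter ℝ) ≤ 𝓝[>] 0 →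
        |Pool.Agent.TH553.CZ.lm U (Pool.Agent.TH553.CZ.tw π) (fun v => (x v, c v)) τ| ≤
          ∫ g, ‖tr π g‖ ∂μ := fun τ U hU =>
      Pool.Agent.TH553.CZ.lm_tw_le hZ hx' hπ.continuous hπ.schur c τ hU
    have hord : ∀ τ : ℝ, ∀ Λ : ℂ → ℂ, IsContinuation π x c τ Λ →
        meromorphicOrderAt Λ (1 + τ * Complex.I) = 0 := by
      intro τ Λ hΛ
      unfold IsContinuation at hΛ
      rw [LFun_eq] at hΛ
      exact Pool.Agent.TH553.CZ.order_zero_of hlt (hb τ) hΛ.1 hΛ.2
    refine ⟨fun τ => ⟨?_, fun η hη => ?_, hord τ⟩, fun hcont => ?_⟩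
    · rw [LFun_eq]
      exact (Pool.Agent.TH553.ST.size_L1 (Pool.Agent.TH553.CZ.tw π) (fun v => (x v, c v)) τ).1
    · unfold size
      rw [LFun_eq]
      exact Pool.Agent.TH553.CZ.size_le_of (hb τ) hη
    · have h1 := Pool.Agent.TH553.ST.avg_L1 (π := Pool.Agent.TH553.CZ.tw π)
        (y := fun v => (x v, c v)) fun τ => by
          obtain ⟨Λ, hΛ⟩ := hcont τ
          have h2 := hord τ Λ hΛ
          unfold IsContinuation at hΛ
          rw [LFun_eq] at hΛ
          exact ⟨Λ, hΛ.1, hΛ.2, h2⟩
      rw [avg_eq]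
      refine h1.congr fun N => ?_
      congr 1
      funext v
      exact Pool.Agent.TH553.CZ.chi_tw _
  refine ⟨key, fun h1 h2 f hf hcl => ?_⟩
  rw [avg_eq]
  refine Pool.Agent.TH553.ST.weyl (fun n π hc hs hnt => ?_) hf hcl
  by_cases hzt : ∀ z ∈ Z, π z = 1
  · -- trivial on `Z`
    have h3 := hx' (Pool.Agent.TH553.ST.chi π) (Pool.Agent.TH553.ST.cont_chi hc)
      (fun g h => Pool.Agent.TH553.ST.chi_cls π g h) fun z hz g => by
        unfold Pool.Agent.TH553.ST.chi
        rw [map_mul, hzt z hz, one_mul]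
    rwa [Pool.Agent.TH553.ST.int_chi hc hs hnt] at h3
  · push Not at hzt
    rcases Nat.lt_or_ge n 2 with hn | hn
    · have hn0 : n ≠ 0 := by
        rintro rfl
        obtain ⟨g, hg⟩ := hnt
        exact hg (Subtype.ext (Subsingleton.elim _ _))
      have hn1 : n = 1 := by omega
      subst hn1
      have hnorm : ∀ g, ‖(π g : Matrix (Fin 1) (Fin 1) ℂ) 0 0‖ = 1 := by
        intro g
        have h3 := Matrix.mem_unitaryGroup_iff.1 (π g).2
        have h4 := congrFun (congrFun h3 0) 0
        rw [Matrix.mul_apply] at h4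
        simp only [Fin.sum_univ_one, Matrix.star_apply, Matrix.one_apply_eq] at h4
        have h5 : (π g : Matrix (Fin 1) (Fin 1) ℂ) 0 0 *
            (starRingEnd ℂ) ((π g : Matrix (Fin 1) (Fin 1) ℂ) 0 0) = 1 := h4
        rw [Complex.mul_conj, Complex.normSq_eq_norm_sq] at h5
        have h6 : ‖(π g : Matrix (Fin 1) (Fin 1) ℂ) 0 0‖ ^ 2 = 1 := by exact_mod_cast h5
        exact (pow_eq_one_iff_of_nonneg (norm_nonneg _) two_ne_zero).1 h6
      let ψ : G →* Circle :=
        { toFun := fun g => ⟨(π g : Matrix (Fin 1) (Fin 1) ℂ) 0 0,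
            mem_sphere_zero_iff_norm.2 (hnorm g)⟩
          map_one' := by
            apply Circle.ext
            change (π 1 : Matrix (Fin 1) (Fin 1) ℂ) 0 0 = 1
            rw [map_one]
            simp
          map_mul' := fun g h => by
            apply Circle.ext
            change (π (g * h) : Matrix (Fin 1) (Fin 1) ℂ) 0 0 =
              (π g : Matrix (Fin 1) (Fin 1) ℂ) 0 0 * (π h : Matrix (Fin 1) (Fin 1) ℂ) 0 0
            rw [map_mul]
            change ((π g : Matrix (Fin 1) (Fin 1) ℂ) * (π h : Matrix (Fin 1) (Fin 1) ℂ)) 0 0 = _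
            rw [Matrix.mul_apply, Fin.sum_univ_one] }
      have hψ : ∀ g, (ψ g : ℂ) = (π g : Matrix (Fin 1) (Fin 1) ℂ) 0 0 := fun g => rfl
      have hψc : Continuous ψ :=
        continuous_induced_rng.2 ((continuous_subtype_val.comp hc).matrix_elem 0 0)
      obtain ⟨z, hz, hz1⟩ := hzt
      have h3 := h1 ψ hψc ⟨z, hz, fun h => hz1 (by
        apply Subtype.ext
        ext i j
        rw [Subsingleton.elim i 0, Subsingleton.elim j 0, ← hψ z, h]
        simp)⟩
      rw [avg_eq] at h3
      refine h3.congr fun N => ?_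
      congr 1
      funext v
      rw [hψ]
      unfold Pool.Agent.TH553.ST.chi
      simp [Matrix.trace]
    · have h3 := ((key n π ⟨hc, hs⟩ hn).2 fun _ => 1).2 (h2 n π ⟨hc, hs⟩ hn hzt)
      rw [avg_eq] at h3
      refine h3.congr fun N => ?_
      congr 1
      funext v
      rw [Circle.coe_one, one_mul]
      rfl

end Pool.Agent.Results.MP_753a9c_nt.CentralQuotient
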