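import Pool.Agent.TH129.ST.Inst

/-!
# The generalized Sato-Tate conjecture in the sense of the logarithmic density

Let `A` be an abelian variety of dimension `g` over a number field `K`, for example over `ℚ`, and
`a_i(v)` the coefficient of `T^i` in the normalised `L`-polynomial at the prime `v`.  Let `V` be
`H^1(A)(1/2)`, with the inverse roots of this polynomial as eigenvalues of Frobenius; up to sign
`a_i(v)` is the trace of Frobenius on `Λ^i V`.  Let `ν` be a probability measure on the real line, for
instance the image of the Haar measure of the Sato-Tate group.

* If the numbers `a_i(v)` are equidistributed for `ν`, then they are equidistributed in the sense of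
  the logarithmic density, and then the `L`-function of `(Λ^i V)^{⊗ n}` has at the point `1` a pole of
  the order `± ∫ x^n dν`, for all `n` for which it has a meromorphic continuation to a neighbourhood of
  this single point.
* If all these `L`-functions, `n = 0, 1, 2, ...`, have such a continuation and these orders, then the
  `a_i(v)` are equidistributed for `ν` in the sense of the logarithmic density.
* If all have such a continuation, whatever the orders, then the mean value of `f(a_i(v))` exists in
  the sense of the logarithmic density for every continuous function `f`.

The same is proved for several coefficients `a_{i_1}, ..., a_{i_m}` at once.  Nothing is assumed about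
the other points of the line `Re s = 1`.
-/

set_option autoImplicit false

open Filter Topology NumberField IsDedekindDomain Polynomial

namespace Pool.Agent.Results.MP_753a9c_nt.LogarithmicDensity

open Pool.Agent.TH129.ST (IsAbelianFrobenius DistributionLaw)

theorem result {K : Type} [Field K] [NumberField K] {l : ℕ}
    (A : Set (MvPolynomial (Fin l) (𝓞 K))) (g : ℕ)
    (α : HeightOneSpectrum (𝓞 K) → Fin (2 * g) → ℂ)
    (hα : ∀ᶠ v in cofinite, IsAbelianFrobenius A v (α v)) (m : ℕ) (i : Fin m → ℕ)
    (hg : 1 ≤ g) : DistributionLaw 1 α i :=
  Pool.Agent.TH129.ST.distributionLaw (by omega) (hα.mono fun _ h => h.isFrobenius) i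

end Pool.Agent.Results.MP_753a9c_nt.LogarithmicDensity
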