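import Pool.Agent.TH869.SQ.N2
import Pool.Agent.W529.ST.Hyp

/-!
# The law of the normalised Euler factors for products of twists by the values of polynomials

`h_1, …, h_r ∈ ℤ[x]` are fixed, and `f_1, …, f_r ∈ ℤ[t]` are such that no product of `f_i` over a
nonempty set of indices is a constant times the square of a polynomial.  For a positive integer `n`
let `A_i(n)` be the Jacobian of the smooth projective curve `f_i(n) y² = h_i(x)`, the quadratic twist
by `f_i(n)` of the Jacobian `A_i` of `y² = h_i(x)`, and let `A(n)` be the product of the `A_i(n)`.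
We consider any `m` real functions of the coefficients of the normalised `L`-polynomials of
`A_1(n), …, A_r(n)` at `p`, for instance the first `m` coefficients of the normalised
`L`-polynomial of `A(n)`.  For all `n ≤ N` outside a set of at most `C N^(1-κ)` exceptions, all
`y ≤ N^κ` and all boxes, the number of the good primes `p ≤ y` at which the values of the functions
are in the box is, up to an error `C y^(1/2+δ) √(1 + log N)`, the one predicted from the `A_i`
by the rule that all the signs (`-1` acting on any of the factors) are equally likely.  Here `κ` and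
`C` depend only on `f`, `m` and `δ`.
-/

set_option autoImplicit false

namespace Pool.Agent.Results.MP_753a9c_nt.PolynomialTwists

open Finset Polynomial

/-- The number of the points of the smooth projective curve `d y² = h(x)` over the field with `p ^ j`
elements, that is, over the set of the elements of the algebraic closure of `ℤ/p` that are fixed by
`z ↦ z ^ (p ^ j)`: the affine points, and the points at infinity; there is one if `deg h` is odd,
and if `deg h = 2g + 2` with leading coefficient `c` they are the solutions `z` of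
`d z² = c` (`z = y / x^(g + 1)`). -/
noncomputable def pointCount (p : ℕ) [Fact p.Prime] (h : (ZMod p)[X]) (d : ZMod p) (j : ℕ) : ℕ :=
  Nat.card {P : AlgebraicClosure (ZMod p) × AlgebraicClosure (ZMod p) //
    P.1 ^ (p ^ j) = P.1 ∧ P.2 ^ (p ^ j) = P.2 ∧
    algebraMap (ZMod p) (AlgebraicClosure (ZMod p)) d * P.2 ^ 2 = aeval P.1 h} +
  if Odd h.natDegree then 1 else
    Nat.card {z : AlgebraicClosure (ZMod p) // z ^ (p ^ j) = z ∧
      algebraMap (ZMod p) (AlgebraicClosure (ZMod p)) d * z ^ 2 =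
        algebraMap (ZMod p) (AlgebraicClosure (ZMod p)) h.leadingCoeff}

/-- The coefficients `c_k` of `L(T) = (1 - T)(1 - p T) exp(∑ N_j T^j / j) = exp(∑ t_j T^j / j)`, where
`t_j = N_j - 1 - p^j`: `c_0 = 1` and `(k + 1) c_{k+1} = ∑_{j ≤ k} t_{j+1} c_{k-j}`. -/
noncomputable def coeffL (t : ℕ → ℝ) : ℕ → ℝ
  | 0 => 1
  | k + 1 => (∑ j : Fin (k + 1), t (j + 1) * coeffL t (k - j)) / (k + 1)

/-- The coefficient of `T^k` in the normalised `L`-polynomial `L_p(p^{-1/2} T)` at the prime `p` of
the Jacobian of `d y² = h(x)` (and `0` if `p` is not prime). -/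
noncomputable def a (h : ℤ[X]) (d : ℤ) (p k : ℕ) : ℝ :=
  if hp : p.Prime then
    haveI : Fact p.Prime := ⟨hp⟩
    coeffL (fun j => (pointCount p (h.map (Int.castRingHom (ZMod p))) (d : ZMod p) j : ℝ) -
      1 - (p : ℝ) ^ j) k / (p : ℝ) ^ ((k : ℝ) / 2)
  else 0

/-- `p` is a prime that does not divide `2d`, and the reduction of `h` modulo `p` is separable of the
same degree as `h`; then the curve `d y² = h(x)` and its Jacobian have good reduction at `p`. -/
def Good (h : ℤ[X]) (d : ℤ) (p : ℕ) : Prop :=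
  p.Prime ∧ p ≠ 2 ∧ ¬ (p : ℤ) ∣ d ∧
    (h.map (Int.castRingHom (ZMod p))).natDegree = h.natDegree ∧
    (h.map (Int.castRingHom (ZMod p))).Separable

/-- The primes up to `y`. -/
def primes (y : ℕ) : Finset ℕ := (range (y + 1)).filter Nat.Prime

open Classical in
/-- The number of the primes `p ≤ y` that are good for all the curves `f_i(n) y² = h_i(x)` and at
which the `m` functions `φ` of the coefficients of the normalised `L`-polynomials of their Jacobians
have values in the intervals `I_1, …, I_m`. -/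
noncomputable def count {r m : ℕ} (f h : Fin r → ℤ[X]) (φ : (Fin r → ℕ → ℝ) → Fin m → ℝ)
    (I : Fin m → Set ℝ) (n y : ℕ) : ℕ :=
  ((primes y).filter (fun p => (∀ i, Good (h i) ((f i).eval (n : ℤ)) p) ∧
    ∀ j, φ (fun i k => a (h i) ((f i).eval (n : ℤ)) p k) j ∈ I j)).card

open Classical in
/-- The average over the `2^r` choices of the signs `ε_1, …, ε_r` of the number of the primes
`p ≤ y` that are good for all the curves `y² = h_i(x)` and at which the `m` functions `φ` of
the coefficients of the polynomials `L_i(ε_i T)`, where `L_i` is the normalised `L`-polynomial at `p` of the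
Jacobian of `y² = h_i(x)`, have values in the intervals `I_1, …, I_m`. -/
noncomputable def expected {r m : ℕ} (h : Fin r → ℤ[X]) (φ : (Fin r → ℕ → ℝ) → Fin m → ℝ)
    (I : Fin m → Set ℝ) (y : ℕ) : ℝ :=
  (∑ ε : Fin r → ℤˣ, (((primes y).filter (fun p => (∀ i, Good (h i) 1 p) ∧
    ∀ j, φ (fun i k => ((ε i : ℤ) : ℝ) ^ k * a (h i) 1 p k) j ∈ I j)).card : ℝ)) / 2 ^ r

theorem coeffL_twist (ε : ℝ) (t s : ℕ → ℝ) (h : ∀ j, j ≠ 0 → s j = ε ^ j * t j) (i : ℕ) :
    coeffL s i = ε ^ i * coeffL t i := by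
  induction i using Nat.strong_induction_on with
  | _ i ih =>
    cases i with
    | zero => rw [coeffL, coeffL, pow_zero, one_mul]
    | succ i =>
      rw [coeffL, coeffL, ← mul_div_assoc, Finset.mul_sum]
      congr 1
      refine Finset.sum_congr rfl fun j _ => ?_
      rw [h _ (Nat.succ_ne_zero _), ih (i - j) (by omega)]
      have h2 : ε ^ (i + 1) = ε ^ ((j : ℕ) + 1) * ε ^ (i - (j : ℕ)) := by
        rw [← pow_add]
        congr 1
        omega
      rw [h2, Nat.succ_eq_add_one]
      ring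

theorem trG_pointCount (p : ℕ) [Fact p.Prime] (h : (ZMod p)[X]) (d : ZMod p) (j : ℕ) :
    (Pool.Agent.W529.ST.trG (ZMod p) h d j : ℝ) =
      -((pointCount p h d j : ℝ) - 1 - (p : ℝ) ^ j) := by
  unfold Pool.Agent.W529.ST.trG Pool.Agent.W529.ST.infPts Pool.Agent.H126T.affPts pointCount
  simp only [Nat.card_zmod]
  push_cast
  ring

theorem a_twist (h : ℤ[X]) (d : ℤ) (p : ℕ) [Fact p.Prime] (hp : p ≠ 2)
    (hd : (d : ZMod p) ≠ 0) (k : ℕ) :
    a h d p k = Pool.Agent.TH869.SQ.ch p (d : ZMod p) ^ k * a h 1 p k := by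
  unfold a
  rw [dif_pos Fact.out, dif_pos Fact.out, ← mul_div_assoc]
  congr 1
  refine coeffL_twist _ _ _ (fun j hj => ?_) k
  have h1 := Pool.Agent.W529.ST.trG_twist (Pool.Agent.TH869.SQ.rc p hp)
    (h.map (Int.castRingHom (ZMod p))) hd hj
  have h3 := congrArg (fun z : ℤ => (z : ℝ)) h1
  simp only [Int.cast_mul, Int.cast_pow] at h3
  rw [trG_pointCount, trG_pointCount] at h3
  unfold Pool.Agent.TH869.SQ.ch
  rw [Int.cast_one]
  linear_combination -h3

theorem eval_map (f : ℤ[X]) (p n : ℕ) :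
    (f.map (Int.castRingHom (ZMod p))).eval (n : ZMod p) = ((f.eval (n : ℤ) : ℤ) : ZMod p) := by
  have := Polynomial.eval_intCast_map (Int.castRingHom (ZMod p)) f (n : ℤ)
  rw [eq_intCast, Int.cast_natCast] at this
  exact this

/-- **The law of the normalised Euler factors for almost all members of a polynomial family of
products of quadratic twists.** -/
theorem result (r m : ℕ) (f : Fin r → ℤ[X])
    (hf : ∀ S : Finset (Fin r), S.Nonempty → ∀ (c : ℚ) (g : ℚ[X]),
      (∏ i ∈ S, f i).map (Int.castRingHom ℚ) ≠ C c * g ^ 2)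
    (δ : ℝ) (hδ : 0 < δ) (hδ1 : δ ≤ 1) :
    ∃ κ C : ℝ, 0 < κ ∧ κ ≤ 1 ∧ 1 ≤ C ∧
      ∀ (h : Fin r → ℤ[X]) (φ : (Fin r → ℕ → ℝ) → Fin m → ℝ) (N : ℕ), 1 ≤ N →
      ∃ E : Finset ℕ, (E.card : ℝ) ≤ C * (N : ℝ) ^ (1 - κ) ∧
        ∀ n : ℕ, n ≤ N → n ∉ E → ∀ y : ℕ, (y : ℝ) ≤ (N : ℝ) ^ κ →
          ∀ I : Fin m → Set ℝ, (∀ j, (I j).OrdConnected) →
            |(count f h φ I n y : ℝ) - expected h φ I y| ≤
              C * ((y : ℝ) ^ (1 / 2 + δ) * √(1 + Real.log N)) := by
  classical
  obtain ⟨κ, C, h1, h2, h3, H⟩ := Pool.Agent.TH869.SQ.signs_boxes m f hf δ hδ hδ1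
  refine ⟨κ, C, h1, h2, h3, ?_⟩
  intro h φ N hN
  obtain ⟨E, hE1, hE2⟩ := H (fun p => ∀ i, Good (h i) 1 p)
    (fun p e => φ (fun i k => ((e i : ℤ) : ℝ) ^ k * a (h i) 1 p k)) N hN
  refine ⟨E, hE1, ?_⟩
  intro n hn hnE y hy I hI
  have h4 := hE2 n hn hnE y hy I hI
  have e1 : (count f h φ I n y : ℝ) = ∑ p ∈ Pool.Agent.TH869.EVF.PR y,
      (if (∀ i, Good (h i) 1 p) ∧ Pool.Agent.TH869.SQ.nz f p n then
        Pool.Agent.TH869.SQ.ind I (φ (fun i k =>
          (((Pool.Agent.TH869.SQ.sgn f p n i : ℤˣ) : ℤ) : ℝ) ^ k * a (h i) 1 p k)) else 0) := by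
    unfold count
    rw [card_filter]
    push_cast
    refine sum_congr rfl fun p hp => ?_
    have hpp : p.Prime := (mem_filter.mp hp).2
    have : Fact p.Prime := ⟨hpp⟩
    have hiff : (∀ i, Good (h i) ((f i).eval (n : ℤ)) p) ↔
        (∀ i, Good (h i) 1 p) ∧ Pool.Agent.TH869.SQ.nz f p n := by
      constructor
      · intro hg
        refine ⟨fun i => ⟨hpp, (hg i).2.1, ?_, (hg i).2.2.2⟩, fun i => ?_⟩
        · intro h5
          exact hpp.one_lt.ne' (by exact_mod_cast Int.eq_one_of_dvd_one (by positivity) h5)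
        · rw [eval_map, Ne, ZMod.intCast_zmod_eq_zero_iff_dvd]
          exact (hg i).2.2.1
      · rintro ⟨hg, hz⟩ i
        refine ⟨hpp, (hg i).2.1, ?_, (hg i).2.2.2⟩
        have h5 := hz i
        rwa [eval_map, Ne, ZMod.intCast_zmod_eq_zero_iff_dvd] at h5
    by_cases hg : (∀ i, Good (h i) 1 p) ∧ Pool.Agent.TH869.SQ.nz f p n
    · rw [if_pos hg]
      have h6 : (fun (i : Fin r) (k : ℕ) => a (h i) ((f i).eval (n : ℤ)) p k) =
          fun i k => (((Pool.Agent.TH869.SQ.sgn f p n i : ℤˣ) : ℤ) : ℝ) ^ k * a (h i) 1 p k := by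
        funext i k
        have h7 := hg.2 i
        have h8 : (((f i).eval (n : ℤ) : ℤ) : ZMod p) ≠ 0 := by rwa [← eval_map]
        rw [a_twist (h i) _ p (hg.1 i).2.1 h8 k]
        congr 2
        rw [← eval_map]
        unfold Pool.Agent.TH869.SQ.sgn
        rw [dif_pos hpp]
        exact (Pool.Agent.TH869.SQ.sg_eq p (fun i => (f i).map (Int.castRingHom (ZMod p)))
          (n : ZMod p) i h7).symm
      unfold Pool.Agent.TH869.SQ.ind
      rw [← h6]
      by_cases h9 : ∀ j, φ (fun i k => a (h i) ((f i).eval (n : ℤ)) p k) j ∈ I j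
      · rw [if_pos ⟨hiff.mpr hg, h9⟩, if_pos h9]
      · rw [if_neg (fun h10 => h9 h10.2), if_neg h9]
    · rw [if_neg hg, if_neg (fun h10 => hg (hiff.mp h10.1))]
  have e2 : expected h φ I y = ∑ p ∈ Pool.Agent.TH869.EVF.PR y,
      (if ∀ i, Good (h i) 1 p then (∑ e : Fin r → ℤˣ, Pool.Agent.TH869.SQ.ind I
        (φ (fun i k => ((e i : ℤ) : ℝ) ^ k * a (h i) 1 p k))) / 2 ^ r else 0) := by
    unfold expected
    simp only [card_filter]
    push_cast
    rw [sum_comm, sum_div]
    refine sum_congr rfl fun p hp => ?_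
    by_cases hg : ∀ i, Good (h i) 1 p
    · rw [if_pos hg]
      congr 1
      refine sum_congr rfl fun e _ => ?_
      unfold Pool.Agent.TH869.SQ.ind
      by_cases h9 : ∀ j, φ (fun i k => ((e i : ℤ) : ℝ) ^ k * a (h i) 1 p k) j ∈ I j
      · rw [if_pos ⟨hg, h9⟩, if_pos h9]
      · rw [if_neg (fun h10 => h9 h10.2), if_neg h9]
    · rw [if_neg hg, sum_eq_zero fun e _ => if_neg fun h10 => hg h10.1, zero_div]
  rw [e1, e2]
  unfold Pool.Agent.TH869.SQ.lam at h4
  convert h4

end Pool.Agent.Results.MP_753a9c_nt.PolynomialTwists
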