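import Pool.Agent.TH327.ST.OddHalfBase
import Pool.Agent.W529.ST.Wrap

/-!
# Joint laws for the quadratic twists of hyperelliptic Jacobians and their products

`F` is a number field (`ℚ` in the problem) and `f ∈ 𝓞_F[x]` is separable; `C_d`, `d ∈ 𝓞_F` nonzero, is
the smooth projective curve `d y² = f(x)`, and `A_d` its Jacobian, the quadratic twist by `d` of
`A = A_1`.  The sequence `a f d v = (a_0, a_1, …)` of the coefficients of the normalised `L`-polynomial
of `A_d` at `v`, the primes `Good` for `A_d` and the point counts are those of the file `OddHalfBase`.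

We take `R` such curves, given by `f_0, …, f_(R-1)` (possibly equal), and twist them independently by
elements of a finite set `T`.  The generalized Sato-Tate conjecture predicts that the joint law of the
coefficients of `∏ A_(i, d_i)` is, for independent `d_i`, the law for `∏ A_(i, 1)` symmetrised under
independent changes of sign of the Frobenius classes of the factors, also when `v` is restricted by
its Frobenius class in a fixed extension.  We show that this holds at every large scale
up to `1 / n` for all but `B |T|^(R - 1)` of the `|T|^R` tuples `(d_i)`, `B` explicit and independent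
of `T` and `F`.
-/

set_option autoImplicit false

namespace Pool.Agent.Results.MP_753a9c_nt.TwistLaws

open NumberField IsDedekindDomain Filter Topology Polynomial
open Pool.Agent.Results.MP_753a9c_nt.OddHalf (a Good coeffL pointCount a_twist finite_bad)

/-- A test function of the first `m` coefficients of `R` polynomials: bounded by `1`, and changing by
at most `ε` when each of the coordinates `x i 1, …, x i m` changes by at most `ε` (so it depends only
on them). -/
def IsTest {R : ℕ} (m : ℕ) (Φ : (Fin R → ℕ → ℝ) → ℝ) : Prop :=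
  (∀ x, |Φ x| ≤ 1) ∧ ∀ (x y : Fin R → ℕ → ℝ) (ε : ℝ), 0 ≤ ε →
    (∀ i j, 1 ≤ j → j ≤ m → |x i j - y i j| ≤ ε) → |Φ x - Φ y| ≤ ε

/-- The sequence of the coefficients of `P(-T)`, when `x` is that of `P(T)`. -/
def refl (x : ℕ → ℝ) : ℕ → ℝ := fun i => (-1) ^ i * x i

/-- The mean of `Φ` over the `2^R` choices of signs. -/
noncomputable def sym {R : ℕ} (Φ : (Fin R → ℕ → ℝ) → ℝ) (x : Fin R → ℕ → ℝ) : ℝ :=
  (∑ ε : Fin R → Bool, Φ (fun i => if ε i = true then refl (x i) else x i)) / 2 ^ R

/-- the mean over the signs of the first `j` coordinates -/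
noncomputable def mix {R : ℕ} (j : ℕ) (Φ : (Fin R → ℕ → ℝ) → ℝ) (x : Fin R → ℕ → ℝ) : ℝ :=
  (∑ ε : Fin R → Bool, Φ (fun i => if (i : ℕ) < j ∧ ε i = true then refl (x i) else x i)) / 2 ^ R

theorem mix_zero {R : ℕ} (Φ : (Fin R → ℕ → ℝ) → ℝ) (x : Fin R → ℕ → ℝ) : mix 0 Φ x = Φ x := by
  unfold mix
  have h : ∀ ε : Fin R → Bool, (fun i : Fin R => if (i : ℕ) < 0 ∧ ε i = true then refl (x i) else x i)
      = x := fun ε => funext fun i => if_neg (fun h => absurd h.1 (Nat.not_lt_zero _))
  simp only [h]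
  rw [Finset.sum_const, Finset.card_univ, Fintype.card_fun, Fintype.card_bool, Fintype.card_fin,
    nsmul_eq_mul]
  push_cast
  field_simp

theorem mix_last {R : ℕ} (Φ : (Fin R → ℕ → ℝ) → ℝ) (x : Fin R → ℕ → ℝ) : mix R Φ x = sym Φ x := by
  unfold mix sym
  congr 1
  refine Finset.sum_congr rfl fun ε _ => ?_
  congr 1
  funext i
  have : ((i : ℕ) < R ∧ ε i = true) ↔ ε i = true := ⟨fun h => h.2, fun h => ⟨i.2, h⟩⟩
  simp only [this]

theorem mix_abs {R : ℕ} (j : ℕ) {Φ : (Fin R → ℕ → ℝ) → ℝ} (h : ∀ x, |Φ x| ≤ 1)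
    (x : Fin R → ℕ → ℝ) : |mix j Φ x| ≤ 1 := by
  unfold mix
  rw [abs_div, abs_of_pos (by positivity : (0 : ℝ) < 2 ^ R), div_le_one (by positivity)]
  refine (Finset.abs_sum_le_sum_abs _ _).trans ?_
  refine (Finset.sum_le_sum fun ε _ => h _).trans ?_
  rw [Finset.sum_const, Finset.card_univ, Fintype.card_fun, Fintype.card_bool, Fintype.card_fin,
    nsmul_eq_mul, mul_one]
  push_cast
  exact le_rfl

theorem refl_abs (x : ℕ → ℝ) (i : ℕ) : |refl x i| = |x i| := by
  unfold refl
  rw [abs_mul, abs_pow, abs_neg, abs_one, one_pow, one_mul]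

theorem refl_sub_abs (x y : ℕ → ℝ) (i : ℕ) : |refl x i - refl y i| = |x i - y i| := by
  unfold refl
  rw [← mul_sub, abs_mul, abs_pow, abs_neg, abs_one, one_pow, one_mul]

theorem mix_test {R : ℕ} (j m : ℕ) {Φ : (Fin R → ℕ → ℝ) → ℝ} (h : IsTest m Φ) :
    IsTest m (mix j Φ) := by
  refine ⟨mix_abs j h.1, fun x y ε hε hxy => ?_⟩
  unfold mix
  rw [← sub_div, ← Finset.sum_sub_distrib, abs_div, abs_of_pos (by positivity : (0 : ℝ) < 2 ^ R),
    div_le_iff₀ (by positivity)]
  refine (Finset.abs_sum_le_sum_abs _ _).trans ?_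
  have h2 : ∀ η : Fin R → Bool, |Φ (fun i => if (i : ℕ) < j ∧ η i = true then refl (x i) else x i) -
      Φ (fun i => if (i : ℕ) < j ∧ η i = true then refl (y i) else y i)| ≤ ε := by
    intro η
    refine h.2 _ _ ε hε fun i l hl hlm => ?_
    split_ifs
    · rw [refl_sub_abs]
      exact hxy i l hl hlm
    · exact hxy i l hl hlm
  refine (Finset.sum_le_sum fun η _ => h2 η).trans ?_
  rw [Finset.sum_const, Finset.card_univ, Fintype.card_fun, Fintype.card_bool, Fintype.card_fin,
    nsmul_eq_mul]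
  push_cast
  exact le_of_eq (mul_comm _ _)

theorem sum_flip {R : ℕ} (j : Fin R) (g : (Fin R → Bool) → ℝ) :
    2 * ∑ ε : Fin R → Bool, g ε =
      ∑ ε : Fin R → Bool, (g (Function.update ε j false) + g (Function.update ε j true)) := by
  classical
  let fl : (Fin R → Bool) ≃ (Fin R → Bool) :=
    { toFun := fun ε => Function.update ε j (!(ε j))
      invFun := fun ε => Function.update ε j (!(ε j))
      left_inv := fun ε => by
        funext i
        by_cases h : i = j
        · subst h; simp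
        · simp [Function.update_of_ne h]
      right_inv := fun ε => by
        funext i
        by_cases h : i = j
        · subst h; simp
        · simp [Function.update_of_ne h] }
  have h1 : ∑ ε : Fin R → Bool, g (fl ε) = ∑ ε : Fin R → Bool, g ε := Equiv.sum_comp fl g
  have h2 : ∀ ε : Fin R → Bool, g ε + g (fl ε) =
      g (Function.update ε j false) + g (Function.update ε j true) := by
    intro ε
    have h3 : fl ε = Function.update ε j (!(ε j)) := rfl
    rw [h3]
    cases h4 : ε j with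
    | false =>
      have h5 : Function.update ε j false = ε := by rw [← h4, Function.update_eq_self]
      rw [h5]
      simp
    | true =>
      have h5 : Function.update ε j true = ε := by rw [← h4, Function.update_eq_self]
      rw [h5]
      simp only [Bool.not_true]
      ring
  rw [two_mul]
  nth_rw 2 [← h1]
  rw [← Finset.sum_add_distrib]
  exact Finset.sum_congr rfl fun ε _ => h2 ε

theorem mix_step {R : ℕ} (j : Fin R) (Φ : (Fin R → ℕ → ℝ) → ℝ) (x : Fin R → ℕ → ℝ) :
    (mix j Φ x + mix j Φ (Function.update x j (refl (x j)))) / 2 = mix (j + 1) Φ x := by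
  classical
  unfold mix
  have h1 := sum_flip j (fun ε => Φ (fun i => if (i : ℕ) < (j : ℕ) + 1 ∧ ε i = true then refl (x i)
    else x i))
  have h2 : ∀ ε : Fin R → Bool,
      (fun i : Fin R => if (i : ℕ) < (j : ℕ) + 1 ∧ (Function.update ε j false) i = true then
        refl (x i) else x i) =
      (fun i : Fin R => if (i : ℕ) < j ∧ ε i = true then refl (x i) else x i) := by
    intro ε
    funext i
    by_cases h : i = j
    · subst h; simp
    · have h3 : (i : ℕ) ≠ j := fun h4 => h (Fin.ext h4)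
      rw [Function.update_of_ne h]
      have h4 : ((i : ℕ) < (j : ℕ) + 1 ∧ ε i = true) ↔ ((i : ℕ) < j ∧ ε i = true) := by
        constructor
        · rintro ⟨h5, h6⟩
          exact ⟨by omega, h6⟩
        · rintro ⟨h5, h6⟩
          exact ⟨by omega, h6⟩
      simp only [h4]
  have h3 : ∀ ε : Fin R → Bool,
      (fun i : Fin R => if (i : ℕ) < (j : ℕ) + 1 ∧ (Function.update ε j true) i = true then
        refl (x i) else x i) =
      (fun i : Fin R => if (i : ℕ) < j ∧ ε i = true then
        refl ((Function.update x j (refl (x j))) i) else (Function.update x j (refl (x j))) i) := by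
    intro ε
    funext i
    by_cases h : i = j
    · subst h; simp
    · have h3 : (i : ℕ) ≠ j := fun h4 => h (Fin.ext h4)
      rw [Function.update_of_ne h, Function.update_of_ne h]
      have h4 : ((i : ℕ) < (j : ℕ) + 1 ∧ ε i = true) ↔ ((i : ℕ) < j ∧ ε i = true) := by
        constructor
        · rintro ⟨h5, h6⟩
          exact ⟨by omega, h6⟩
        · rintro ⟨h5, h6⟩
          exact ⟨by omega, h6⟩
      simp only [h4]
  simp only [h2, h3] at h1
  rw [Finset.sum_add_distrib] at h1
  rw [← add_div, ← h1]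
  ring

section
variable {F : Type} [Field F] [NumberField F]

/-- The average of a function `φ` of the primes over the primes of norm at most `N` which are good for
all the `A_(i, d_i)`. -/
noncomputable def average {R : ℕ} (f : Fin R → (𝓞 F)[X]) (d : Fin R → 𝓞 F)
    (φ : HeightOneSpectrum (𝓞 F) → ℝ) (N : ℕ) : ℝ :=
  (∑ᶠ v : {v : HeightOneSpectrum (𝓞 F) // Ideal.absNorm v.asIdeal ≤ N ∧ ∀ i, Good (f i) (d i) v},
    φ v.1) /
    (Nat.card {v : HeightOneSpectrum (𝓞 F) // Ideal.absNorm v.asIdeal ≤ N ∧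
      ∀ i, Good (f i) (d i) v} : ℝ)

open Classical in
theorem exists_finset {R : ℕ} (f : Fin R → (𝓞 F)[X]) (N : ℕ) :
    ∃ t : Finset (HeightOneSpectrum (𝓞 F)),
      Nat.card {v : HeightOneSpectrum (𝓞 F) // Ideal.absNorm v.asIdeal ≤ N} = t.card ∧
      (∀ ψ : HeightOneSpectrum (𝓞 F) → ℝ,
        Pool.Agent.W529.ST.mean F ψ N = (∑ v ∈ t, ψ v) / (t.card : ℝ)) ∧
      ∀ (d : Fin R → 𝓞 F) φ, average f d φ N =
        (∑ v ∈ t.filter (fun v => ∀ i, Good (f i) (d i) v), φ v) /
          ((t.filter (fun v => ∀ i, Good (f i) (d i) v)).card : ℝ) := by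
  obtain ⟨t, ht, hcard, hmean⟩ := Pool.Agent.W529.ST.mean_def (F := F) (fun _ => 0) N
  refine ⟨t, hcard, hmean, fun d φ => ?_⟩
  let e : {v : HeightOneSpectrum (𝓞 F) // Ideal.absNorm v.asIdeal ≤ N ∧ ∀ i, Good (f i) (d i) v} ≃
      t.filter (fun v => ∀ i, Good (f i) (d i) v) :=
    Equiv.subtypeEquivRight fun v => by rw [Finset.mem_filter, ht]
  have hfin : Finite {v : HeightOneSpectrum (𝓞 F) // Ideal.absNorm v.asIdeal ≤ N ∧
      ∀ i, Good (f i) (d i) v} := Finite.of_equiv _ e.symm
  let _ := Fintype.ofFinite {v : HeightOneSpectrum (𝓞 F) // Ideal.absNorm v.asIdeal ≤ N ∧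
    ∀ i, Good (f i) (d i) v}
  unfold average
  congr 1
  · rw [finsum_eq_sum_of_fintype]
    have h1 : ∑ v : {v : HeightOneSpectrum (𝓞 F) // Ideal.absNorm v.asIdeal ≤ N ∧
        ∀ i, Good (f i) (d i) v}, φ v.1 =
        ∑ x : t.filter (fun v => ∀ i, Good (f i) (d i) v), φ x.1 :=
      Fintype.sum_equiv e _ _ fun v => rfl
    rw [h1, Finset.sum_coe_sort (t.filter (fun v => ∀ i, Good (f i) (d i) v)) (fun v => φ v)]
  · rw [Nat.card_congr e, Nat.card_eq_fintype_card, Fintype.card_coe]

/-- leaving out few terms changes a mean little -/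
theorem mean_close {ι : Type} (t u : Finset ι) (hu : u ⊆ t) (φ : ι → ℝ) (h1 : ∀ v, |φ v| ≤ 1)
    (b : ℕ) (hb : t.card ≤ u.card + b) (ht : 0 < t.card) :
    |(∑ v ∈ u, φ v) / (u.card : ℝ) - (∑ v ∈ t, φ v) / (t.card : ℝ)| ≤ 2 * b / t.card := by
  classical
  have htR : (0 : ℝ) < t.card := by exact_mod_cast ht
  have hbR : (t.card : ℝ) ≤ u.card + b := by exact_mod_cast hb
  have hut : (u.card : ℝ) ≤ t.card := by exact_mod_cast Finset.card_le_card hu
  have e1 : |∑ v ∈ u, φ v| ≤ u.card := by
    refine (Finset.abs_sum_le_sum_abs _ _).trans ?_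
    calc ∑ v ∈ u, |φ v| ≤ ∑ v ∈ u, (1 : ℝ) := Finset.sum_le_sum fun v _ => h1 v
      _ = u.card := by simp
  have e2 : |∑ v ∈ t \ u, φ v| ≤ b := by
    refine (Finset.abs_sum_le_sum_abs _ _).trans ?_
    calc ∑ v ∈ t \ u, |φ v| ≤ ∑ v ∈ t \ u, (1 : ℝ) := Finset.sum_le_sum fun v _ => h1 v
      _ = (t \ u).card := by simp
      _ ≤ b := by
        rw [Finset.card_sdiff_of_subset hu]
        have : t.card - u.card ≤ b := by omega
        exact_mod_cast this
  have e3 : ∑ v ∈ t, φ v = ∑ v ∈ u, φ v + ∑ v ∈ t \ u, φ v := by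
    rw [add_comm, Finset.sum_sdiff hu]
  rw [e3, add_div]
  rcases Nat.eq_zero_or_pos u.card with hu0 | hu0
  · rw [Finset.card_eq_zero.1 hu0, Finset.sum_empty, zero_div, zero_div, zero_add, zero_sub, abs_neg,
      abs_div, abs_of_pos htR]
    rw [Finset.card_eq_zero.1 hu0] at e2
    refine div_le_div_of_nonneg_right ?_ htR.le
    have : (0 : ℝ) ≤ b := Nat.cast_nonneg b
    linarith
  · have huR : (0 : ℝ) < u.card := by exact_mod_cast hu0
    have h2 : (∑ v ∈ u, φ v) / (u.card : ℝ) - ((∑ v ∈ u, φ v) / (t.card : ℝ) +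
        (∑ v ∈ t \ u, φ v) / (t.card : ℝ)) = (∑ v ∈ u, φ v) * (1 / (u.card : ℝ) - 1 / (t.card : ℝ)) -
        (∑ v ∈ t \ u, φ v) / (t.card : ℝ) := by ring
    rw [h2]
    have h3 : 0 ≤ 1 / (u.card : ℝ) - 1 / (t.card : ℝ) :=
      sub_nonneg.2 (one_div_le_one_div_of_le huR hut)
    have h4 : |(∑ v ∈ u, φ v) * (1 / (u.card : ℝ) - 1 / (t.card : ℝ))| ≤ b / t.card := by
      rw [abs_mul, abs_of_nonneg h3]
      refine (mul_le_mul_of_nonneg_right e1 h3).trans ?_
      have h5 : (u.card : ℝ) * (1 / (u.card : ℝ) - 1 / (t.card : ℝ)) =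
          ((t.card : ℝ) - u.card) / t.card := by
        field_simp
      rw [h5]
      exact div_le_div_of_nonneg_right (by linarith) htR.le
    have h6 : |(∑ v ∈ t \ u, φ v) / (t.card : ℝ)| ≤ b / t.card := by
      rw [abs_div, abs_of_pos htR]
      exact div_le_div_of_nonneg_right e2 htR.le
    refine (abs_sub _ _).trans ?_
    have h7 : (2 : ℝ) * b / t.card = b / t.card + b / t.card := by ring
    rw [h7]
    exact add_le_add h4 h6

theorem coeffL_bound (t : ℕ → ℝ) (D s : ℝ) (hD : 1 ≤ D) (hs : 0 ≤ s)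
    (h : ∀ j, j ≠ 0 → |t j| ≤ D * s ^ j) (i : ℕ) : |coeffL t i| ≤ D ^ i * s ^ i := by
  induction i using Nat.strong_induction_on with
  | _ i ih =>
    cases i with
    | zero =>
      rw [coeffL]
      simp
    | succ i =>
      rw [coeffL, abs_div]
      have hi : (0 : ℝ) < (i : ℝ) + 1 := by positivity
      rw [abs_of_pos hi, div_le_iff₀ hi]
      refine (Finset.abs_sum_le_sum_abs _ _).trans ?_
      have h1 : ∀ j : Fin (i + 1), |t (j + 1) * coeffL t (i - j)| ≤ D ^ (i + 1) * s ^ (i + 1) := by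
        intro j
        rw [abs_mul]
        have h2 := h (j + 1) (Nat.succ_ne_zero _)
        have h3 := ih (i - j) (by omega)
        have hD0 : 0 ≤ D := by linarith
        calc |t (j + 1)| * |coeffL t (i - j)| ≤ (D * s ^ ((j : ℕ) + 1)) * (D ^ (i - j) * s ^ (i - j)) :=
              mul_le_mul h2 h3 (abs_nonneg _) (by positivity)
          _ = D ^ (i - j + 1) * s ^ (((j : ℕ) + 1) + (i - j)) := by
              rw [pow_add s, pow_succ D]
              ring
          _ = D ^ (i - j + 1) * s ^ (i + 1) := by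
              congr 2
              omega
          _ ≤ D ^ (i + 1) * s ^ (i + 1) :=
              mul_le_mul_of_nonneg_right (pow_le_pow_right₀ hD (by omega)) (by positivity)
      calc ∑ j : Fin (i + 1), |t (j + 1) * coeffL t (i - j)| ≤
            ∑ _j : Fin (i + 1), D ^ (i + 1) * s ^ (i + 1) := Finset.sum_le_sum fun j _ => h1 j
        _ = D ^ (i + 1) * s ^ (i + 1) * ((i : ℝ) + 1) := by
            rw [Finset.sum_const, Finset.card_univ, Fintype.card_fin, nsmul_eq_mul]
            push_cast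
            ring

/-- **Weil's bound**: `|a_i| ≤ (deg f)^i` off a finite set of primes. -/
theorem a_bound (f : (𝓞 F)[X]) (hf : (f.map (algebraMap (𝓞 F) F)).Separable)
    (hn : 1 ≤ f.natDegree) : ∃ Z : Set (HeightOneSpectrum (𝓞 F)), Z.Finite ∧
      ∀ v, v ∉ Z → ∀ i : ℕ, |a f 1 v i| ≤ (f.natDegree : ℝ) ^ i := by
  obtain ⟨Z, hZ, h⟩ := Pool.Agent.W529.ST.exists_good f hf hn
  refine ⟨Z, hZ, fun v hv i => ?_⟩
  have : v.asIdeal.IsMaximal := v.isMaximal
  let _ : Field (𝓞 F ⧸ v.asIdeal) := Ideal.Quotient.field v.asIdeal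
  have hfin : Finite (𝓞 F ⧸ v.asIdeal) := Ring.HasFiniteQuotients.finiteQuotient v.ne_bot
  have hq : (Nat.card (𝓞 F ⧸ v.asIdeal) : ℝ) = (Ideal.absNorm v.asIdeal : ℝ) := rfl
  set q : ℝ := (Nat.card (𝓞 F ⧸ v.asIdeal) : ℝ) with hqd
  have hq0 : 0 < q := by
    rw [hqd]
    exact_mod_cast Nat.card_pos
  have hD : (1 : ℝ) ≤ f.natDegree := by exact_mod_cast hn
  have h1 : ∀ j, j ≠ 0 → |(pointCount (𝓞 F ⧸ v.asIdeal) (f.map (Ideal.Quotient.mk v.asIdeal))
      (Ideal.Quotient.mk v.asIdeal 1) j : ℝ) - 1 - q ^ j| ≤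
      f.natDegree * (Real.sqrt q) ^ j := by
    intro j hj
    have h2 := h v hv j hj
    have h3 : (Pool.Agent.W529.ST.trH v f 1 j : ℝ) =
        -((pointCount (𝓞 F ⧸ v.asIdeal) (f.map (Ideal.Quotient.mk v.asIdeal))
        (Ideal.Quotient.mk v.asIdeal 1) j : ℝ) - 1 - q ^ j) := by
      unfold Pool.Agent.W529.ST.trH Pool.Agent.W529.ST.trG Pool.Agent.W529.ST.infPts
        Pool.Agent.H126T.affPts pointCount
      push_cast
      rw [hqd]
      ring
    rw [h3, abs_neg] at h2
    refine h2.trans (le_of_eq ?_)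
    rw [← hq, Real.sqrt_eq_rpow, Real.sqrt_eq_rpow, ← Real.rpow_natCast, ← Real.rpow_natCast,
      ← Real.rpow_mul hq0.le, ← Real.rpow_mul hq0.le, mul_comm (j : ℝ) (1 / 2)]
  have h4 := coeffL_bound _ f.natDegree (Real.sqrt q) hD (Real.sqrt_nonneg _) h1 i
  have h5 : |a f 1 v i| = |coeffL (fun j => (pointCount (𝓞 F ⧸ v.asIdeal)
      (f.map (Ideal.Quotient.mk v.asIdeal)) (Ideal.Quotient.mk v.asIdeal 1) j : ℝ) - 1 - q ^ j) i| /
      q ^ ((i : ℝ) / 2) := by
    have h6 : a f 1 v i = coeffL (fun j => (pointCount (𝓞 F ⧸ v.asIdeal)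
      (f.map (Ideal.Quotient.mk v.asIdeal)) (Ideal.Quotient.mk v.asIdeal 1) j : ℝ) - 1 - q ^ j) i /
      q ^ ((i : ℝ) / 2) := rfl
    rw [h6, abs_div, abs_of_pos (Real.rpow_pos_of_pos hq0 _)]
  rw [h5, div_le_iff₀ (Real.rpow_pos_of_pos hq0 _)]
  refine h4.trans (le_of_eq ?_)
  congr 1
  rw [Real.sqrt_eq_rpow, ← Real.rpow_natCast, ← Real.rpow_mul hq0.le]
  congr 1
  ring

/-- the cell of a point of the box, for a subdivision of each of the intervals `[-B, B]` -/
noncomputable def cell (m k G : ℕ) (B : ℝ) (x : ℕ → ℝ) (j : Fin m) : Fin (G + 1) :=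
  Fin.ofNat (G + 1) ⌊(x (j + 1) + B) * (4 * k)⌋₊

theorem cell_close {m k G : ℕ} (hk : 1 ≤ k) {B : ℝ} (hG : 8 * (k : ℝ) * B ≤ G)
    {x y : ℕ → ℝ} (hx : ∀ i, 1 ≤ i → i ≤ m → |x i| ≤ B) (hy : ∀ i, 1 ≤ i → i ≤ m → |y i| ≤ B)
    (h : cell m k G B x = cell m k G B y) (i : ℕ) (h1 : 1 ≤ i) (hm : i ≤ m) :
    |x i - y i| ≤ 1 / (4 * k) := by
  have hkR : (0 : ℝ) < 4 * k := by
    have : (0 : ℝ) < k := by exact_mod_cast hk
    positivity
  have h2 := congrFun h ⟨i - 1, by omega⟩
  have hi : i - 1 + 1 = i := by omega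
  unfold cell at h2
  simp only [hi] at h2
  have key : ∀ z : ℕ → ℝ, (∀ i, 1 ≤ i → i ≤ m → |z i| ≤ B) →
      0 ≤ (z i + B) * (4 * k) ∧ ⌊(z i + B) * (4 * k)⌋₊ < G + 1 := by
    intro z hz
    have h3 := abs_le.1 (hz i h1 hm)
    have h4 : 0 ≤ (z i + B) * (4 * k) := mul_nonneg (by linarith [h3.1]) hkR.le
    refine ⟨h4, ?_⟩
    rw [Nat.floor_lt h4]
    have h5 : (z i + B) * (4 * k) ≤ (2 * B) * (4 * k) :=
      mul_le_mul_of_nonneg_right (by linarith [h3.2]) hkR.le
    push_cast
    linarith
  obtain ⟨a1, a2⟩ := key x hx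
  obtain ⟨b1, b2⟩ := key y hy
  have h6 : ⌊(x i + B) * (4 * k)⌋₊ = ⌊(y i + B) * (4 * k)⌋₊ := by
    have h7 := congrArg Fin.val h2
    simp only [Fin.val_ofNat] at h7
    rwa [Nat.mod_eq_of_lt a2, Nat.mod_eq_of_lt b2] at h7
  have c1 := Nat.floor_le a1
  have c2 := Nat.lt_floor_add_one ((x i + B) * (4 * k))
  have c3 := Nat.floor_le b1
  have c4 := Nat.lt_floor_add_one ((y i + B) * (4 * k))
  rw [h6] at c1 c2
  have c5 : |(x i - y i) * (4 * k)| ≤ 1 := by
    rw [abs_le]
    constructor <;> nlinarith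
  rw [abs_mul, abs_of_pos hkR] at c5
  rw [le_div_iff₀ hkR]
  exact c5

/-- Counting tuples one coordinate of which is exceptional, given the others. -/
theorem card_tuples {R : ℕ} {α : Type} [DecidableEq α] (T : Finset α) (j : Fin (R + 1))
    (S : Finset (Fin (R + 1) → α)) (hS : ∀ d ∈ S, ∀ i, d i ∈ T) (B : ℕ)
    (hB : ∀ d : Fin (R + 1) → α, (T.filter fun e => Function.update d j e ∈ S).card ≤ B) :
    S.card ≤ B * T.card ^ R := by
  classical
  let π : (Fin (R + 1) → α) → (Fin R → α) := fun d => fun i => d (j.succAbove i)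
  have h1 : ∀ b ∈ S.image π, (S.filter fun d => π d = b).card ≤ B := by
    intro b hb
    obtain ⟨d, hd, rfl⟩ := Finset.mem_image.1 hb
    refine le_trans ?_ (hB d)
    refine Finset.card_le_card_of_injOn (fun d' => d' j) (fun d' hd' => ?_) ?_
    · have hd'' := Finset.mem_filter.1 (Finset.mem_coe.1 hd')
      have h2 : Function.update d j (d' j) = d' := by
        funext i
        by_cases h : i = j
        · subst h; simp
        · rw [Function.update_of_ne h]
          obtain ⟨l, hl⟩ := Fin.exists_succAbove_eq h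
          rw [← hl]
          exact (congrFun hd''.2 l).symm
      refine Finset.mem_coe.2 (Finset.mem_filter.2 ⟨hS d' hd''.1 j, ?_⟩)
      rw [h2]
      exact hd''.1
    · intro d1 h1 d2 h2 h12
      have h1' := Finset.mem_filter.1 (Finset.mem_coe.1 h1)
      have h2' := Finset.mem_filter.1 (Finset.mem_coe.1 h2)
      funext i
      by_cases h : i = j
      · rw [h]; exact h12
      · obtain ⟨l, hl⟩ := Fin.exists_succAbove_eq h
        rw [← hl]
        exact (congrFun h1'.2 l).trans (congrFun h2'.2 l).symm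
  refine (Finset.card_le_mul_card_image S B h1).trans (Nat.mul_le_mul_left _ ?_)
  calc (S.image π).card ≤ (Fintype.piFinset fun _ : Fin R => T).card := by
        refine Finset.card_le_card fun b hb => ?_
        obtain ⟨d, hd, rfl⟩ := Finset.mem_image.1 hb
        exact Fintype.mem_piFinset.2 fun i => hS d hd _
    _ = T.card ^ R := by
        rw [Fintype.card_piFinset, Finset.prod_const, Finset.card_univ, Fintype.card_fin]

theorem finite_bad_all {R : ℕ} (f : Fin R → (𝓞 F)[X])
    (hf : ∀ i, ((f i).map (algebraMap (𝓞 F) F)).Separable) (hn : ∀ i, 1 ≤ (f i).natDegree)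
    {d : Fin R → 𝓞 F} (hd : ∀ i, d i ≠ 0) :
    {v : HeightOneSpectrum (𝓞 F) | ¬ ∀ i, Good (f i) (d i) v}.Finite := by
  refine (Set.finite_iUnion fun i => finite_bad (f i) (hf i) (hn i) (hd i)).subset fun v hv => ?_
  have hv' : ¬ ∀ i, Good (f i) (d i) v := hv
  rw [not_forall] at hv'
  obtain ⟨i, hi⟩ := hv'
  exact Set.mem_iUnion.2 ⟨i, hi⟩

end

/-- **The joint laws of the coefficients for the quadratic twists of products of Jacobians.**  Let `F`
be a number field, `f_0, …, f_R ∈ 𝓞_F[x]` separable of positive degrees at most `D`, `T` a finite set of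
nonzero elements of `𝓞_F` in different classes modulo squares of `F`, and `n ≥ 1`.  For all large `N`
and every labelling `lab` of the primes with `L` labels, all but at most
`(R + 1) · 16 L (8 k D^m + 1)^((R + 1) m) k² |T|^R`, `k = (R + 1)(n + 1)`, of the tuples
`(d_0, …, d_R)` of elements of `T` have the following property: for every family `Φ_l` of test
functions of the first `m` coefficients of `R + 1` polynomials, one for each label, the average of
`Φ_{lab v}` over the normalised `L`-polynomials of `(A_(0, d_0), …, A_(R, d_R))` at the scale `N` differs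
by less than `1 / n` from the average of the symmetrised function `sym Φ_{lab v}` for
`(A_(0, 1), …, A_(R, 1))`. -/
theorem result (F : Type) [Field F] [NumberField F] (R : ℕ) (f : Fin (R + 1) → (𝓞 F)[X])
    (hf : ∀ i, ((f i).map (algebraMap (𝓞 F) F)).Separable) (hn : ∀ i, 1 ≤ (f i).natDegree)
    (D : ℕ) (hD : ∀ i, (f i).natDegree ≤ D)
    (T : Finset (𝓞 F)) (hT : ∀ d ∈ T, d ≠ 0)
    (hT' : ∀ d ∈ T, ∀ e ∈ T, d ≠ e → ¬ IsSquare ((d * e : 𝓞 F) : F))
    (m n L : ℕ) (hn1 : 1 ≤ n) :
    ∀ᶠ N : ℕ in atTop, ∀ lab : HeightOneSpectrum (𝓞 F) → Fin L,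
      {d : Fin (R + 1) → 𝓞 F | (∀ i, d i ∈ T) ∧
        ∃ Φ : Fin L → (Fin (R + 1) → ℕ → ℝ) → ℝ, (∀ l, IsTest m (Φ l)) ∧
        1 / (n : ℝ) ≤ |average f d (fun v => Φ (lab v) (fun i => a (f i) (d i) v)) N -
          average f (fun _ => 1) (fun v => sym (Φ (lab v)) (fun i => a (f i) 1 v)) N|}.ncard ≤
      (R + 1) * (16 * L * (8 * ((R + 1) * (n + 1)) * D ^ m + 1) ^ ((R + 1) * m) *
        ((R + 1) * (n + 1)) ^ 2 * T.card ^ R) := by
  classical
  have hnR : (1 : ℝ) ≤ n := by exact_mod_cast hn1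
  set δ : ℝ := 1 / (2 * ((n : ℝ) + 1) ^ 2) with hδ
  have hδ0 : 0 < δ := by positivity
  let b : (Fin (R + 1) → 𝓞 F) → ℕ := fun d =>
    {v : HeightOneSpectrum (𝓞 F) | ¬ ∀ i, Good (f i) (d i) v}.ncard
  let TT : Finset (Fin (R + 1) → 𝓞 F) := Fintype.piFinset fun _ => T
  have hev : ∀ᶠ N : ℕ in atTop, ∀ d ∈ insert (fun _ => 1) TT, 2 * (b d : ℝ) / δ ≤
      (Nat.card {v : HeightOneSpectrum (𝓞 F) // Ideal.absNorm v.asIdeal ≤ N} : ℝ) := by
    rw [Filter.eventually_all_finset]
    intro d _
    exact (Pool.Agent.W529.ST.card_atTop F).eventually_ge_atTop _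
  have hT1 : ∀ d ∈ insert (fun _ => 1) TT, ∀ i, d i ≠ 0 := by
    intro d hd i
    rcases Finset.mem_insert.1 hd with rfl | h
    · exact one_ne_zero
    · exact hT _ (Fintype.mem_piFinset.1 h i)
  choose Z0 hZ0 hbd using fun i => a_bound (f i) (hf i) (hn i)
  set Z : Set (HeightOneSpectrum (𝓞 F)) :=
    (⋃ i, Z0 i) ∪ ⋃ d ∈ T, {v : HeightOneSpectrum (𝓞 F) | 2 * d ∈ v.asIdeal} with hZd
  have hZ : Z.Finite := Pool.Agent.W529.ST.finite_bad T hT (Set.finite_iUnion hZ0)
  set k : ℕ := (R + 1) * (n + 1) with hk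
  have hk1 : 1 ≤ k := Nat.mul_pos (Nat.succ_pos R) (Nat.succ_pos n)
  have hkR : (0 : ℝ) < k := by exact_mod_cast hk1
  set B : ℝ := (D : ℝ) ^ m with hB
  set G : ℕ := 8 * k * D ^ m with hG
  have hGB : 8 * (k : ℝ) * B ≤ G := by
    rw [hG, hB]
    push_cast
    exact le_rfl
  let Y : Type := (Fin (R + 1) → Fin m → Fin (G + 1)) × Fin L
  set ν : ℕ := Fintype.card Y with hν
  have hν' : ν = (G + 1) ^ ((R + 1) * m) * L := by
    rw [hν]
    simp only [Y, Fintype.card_prod, Fintype.card_fun, Fintype.card_fin]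
    rw [← pow_mul, mul_comm m]
  let X : Type := (Fin (R + 1) → ℕ → ℝ) × Fin L
  let e : Y ≃ Fin ν := Fintype.equivFin Y
  let κ : X → Fin ν := fun p => e (fun i => cell m k G B (p.1 i), p.2)
  have hbox1 : ∀ v, v ∉ Z → ∀ i l, 1 ≤ l → l ≤ m → |a (f i) 1 v l| ≤ B := by
    intro v hv i l _ hlm
    have hv' : v ∉ Z0 i := fun h => hv (Or.inl (Set.mem_iUnion.2 ⟨i, h⟩))
    refine (hbd i v hv' l).trans ?_
    have h1 : ((f i).natDegree : ℝ) ≤ D := by exact_mod_cast hD i
    have h2 : (1 : ℝ) ≤ (f i).natDegree := by exact_mod_cast hn i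
    exact (pow_le_pow_right₀ h2 hlm).trans (pow_le_pow_left₀ (by positivity) h1 m)
  have hboxd : ∀ v, v ∉ Z → ∀ d ∈ T, ∀ i l, 1 ≤ l → l ≤ m → |a (f i) d v l| ≤ B := by
    intro v hv d hd i l hl hlm
    have h2d : 2 * d ∉ v.asIdeal := fun h => hv (Or.inr (Set.mem_biUnion hd h))
    rw [a_twist (f i) l h2d, abs_mul, abs_pow]
    have h1 := hbox1 v hv i l hl hlm
    have h2 : |Pool.Agent.W529.ST.ch d v| ^ l ≤ 1 :=
      pow_le_one₀ (abs_nonneg _) (Pool.Agent.W529.ST.ch_abs d v)
    calc |Pool.Agent.W529.ST.ch d v| ^ l * |a (f i) 1 v l| ≤ 1 * |a (f i) 1 v l| :=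
          mul_le_mul_of_nonneg_right h2 (abs_nonneg _)
      _ ≤ B := by rw [one_mul]; exact h1
  filter_upwards [Pool.Agent.W529.ST.count_classes T hT hT' hZ ν k hk1, hev,
    Pool.Agent.W529.ST.card_pos F] with N hN1 hN hpos lab
  obtain ⟨t, hcard, hmean, hdis⟩ := exists_finset f N
  rw [hcard] at hN hpos
  have hn0 : (0 : ℝ) < t.card := by exact_mod_cast hpos
  have hclose : ∀ d ∈ insert (fun _ => 1) TT, ∀ (φ : HeightOneSpectrum (𝓞 F) → ℝ),
      (∀ v, |φ v| ≤ 1) → |average f d φ N - Pool.Agent.W529.ST.mean F φ N| ≤ δ := by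
    intro d hd φ hφ
    rw [hdis, hmean]
    have hb : t.card ≤ (t.filter (fun v => ∀ i, Good (f i) (d i) v)).card + b d := by
      have e2 : (t.filter fun v => ¬ ∀ i, Good (f i) (d i) v).card ≤ b d := by
        have hfin := finite_bad_all f hf hn (hT1 d hd)
        rw [← Set.ncard_coe_finset]
        refine Set.ncard_le_ncard (fun v hv => ?_) hfin
        exact (Finset.mem_filter.1 (Finset.mem_coe.1 hv)).2
      have e3 := Finset.card_filter_add_card_filter_not (s := t) (fun v => ∀ i, Good (f i) (d i) v)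
      omega
    refine (mean_close t (t.filter (fun v => ∀ i, Good (f i) (d i) v)) (Finset.filter_subset _ _) _
      hφ (b d) hb hpos).trans ?_
    have h2 := hN d hd
    rw [div_le_iff₀ hδ0] at h2
    rw [div_le_iff₀ hn0]
    linarith
  -- the hybrids
  let w : Fin (R + 1) → (Fin (R + 1) → 𝓞 F) → HeightOneSpectrum (𝓞 F) → Fin (R + 1) → ℕ → ℝ :=
    fun j d v i => if i ≤ j then a (f i) 1 v else a (f i) (d i) v
  let Exc : Fin (R + 1) → (Fin (R + 1) → 𝓞 F) → 𝓞 F → Prop := fun j d c =>
    ∃ Ψ : X → ℝ, (∀ y, |Ψ y| ≤ 1) ∧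
      (∃ r : Fin ν → ℝ, (∀ c, |r c| ≤ 1) ∧ ∀ v, v ∉ Z →
        |Ψ (w j d v, lab v) - r (κ (w j d v, lab v))| ≤ 1 / (4 * k) ∧
        |Ψ (Function.update (w j d v) j (refl (w j d v j)), lab v) -
          r (κ (Function.update (w j d v) j (refl (w j d v j)), lab v))| ≤ 1 / (4 * k)) ∧
      1 / (k : ℝ) ≤ |Pool.Agent.W529.ST.mean F
          (fun v => Ψ (Function.update (w j d v) j (a (f j) c v), lab v)) N -
        Pool.Agent.W529.ST.mean F (fun v => (Ψ (w j d v, lab v) +
          Ψ (Function.update (w j d v) j (refl (w j d v j)), lab v)) / 2) N|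
  have hExc : ∀ j d, (T.filter (Exc j d)).card ≤ 16 * ν * k ^ 2 := by
    intro j d
    refine hN1 X (fun p => (Function.update p.1 j (refl (p.1 j)), p.2)) κ
      (fun v => (w j d v, lab v)) (fun c v => (Function.update (w j d v) j (a (f j) c v), lab v))
      (fun c _ v _ h2d => ?_)
    have hwj : w j d v j = a (f j) 1 v := if_pos le_rfl
    constructor
    · intro h3
      refine Prod.ext ?_ rfl
      have h4 : a (f j) c v = w j d v j := by
        rw [hwj]
        funext l
        rw [a_twist (f j) l h2d, h3, one_pow, one_mul]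
      simp only
      rw [h4, Function.update_eq_self]
    · intro h3
      refine Prod.ext ?_ rfl
      have h4 : a (f j) c v = refl (w j d v j) := by
        rw [hwj]
        funext l
        unfold refl
        rw [a_twist (f j) l h2d, h3]
      simp only
      rw [h4]
  let S : Fin (R + 1) → Finset (Fin (R + 1) → 𝓞 F) := fun j => TT.filter fun d => Exc j d (d j)
  have hS : ∀ j, (S j).card ≤ 16 * ν * k ^ 2 * T.card ^ R := by
    intro j
    refine card_tuples T j (S j) (fun d hd i => ?_) _ fun d => ?_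
    · exact Fintype.mem_piFinset.1 (Finset.mem_filter.1 hd).1 i
    · refine le_trans (Finset.card_le_card fun c hc => ?_) (hExc j d)
      obtain ⟨hcT, hcS⟩ := Finset.mem_filter.1 hc
      refine Finset.mem_filter.2 ⟨hcT, ?_⟩
      have h2 := (Finset.mem_filter.1 hcS).2
      have hw : w j (Function.update d j c) = w j d := by
        funext v i
        by_cases h : i ≤ j
        · simp only [w, if_pos h]
        · have h3 : i ≠ j := fun h4 => h (le_of_eq h4)
          simp only [w, if_neg h]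
          rw [Function.update_of_ne h3]
      simp only [Exc] at h2 ⊢
      rw [hw, Function.update_self] at h2
      exact h2
  have hmain : {d : Fin (R + 1) → 𝓞 F | (∀ i, d i ∈ T) ∧
        ∃ Φ : Fin L → (Fin (R + 1) → ℕ → ℝ) → ℝ, (∀ l, IsTest m (Φ l)) ∧
        1 / (n : ℝ) ≤ |average f d (fun v => Φ (lab v) (fun i => a (f i) (d i) v)) N -
          average f (fun _ => 1) (fun v => sym (Φ (lab v)) (fun i => a (f i) 1 v)) N|} ⊆
      ((Finset.univ.biUnion S : Finset (Fin (R + 1) → 𝓞 F)) : Set (Fin (R + 1) → 𝓞 F)) := by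
    rintro d ⟨hdT, Φ, hΦ, hge⟩
    have hdTT : d ∈ TT := Fintype.mem_piFinset.2 hdT
    let x : ℕ → HeightOneSpectrum (𝓞 F) → Fin (R + 1) → ℕ → ℝ := fun j v i =>
      if (i : ℕ) < j then a (f i) 1 v else a (f i) (d i) v
    let H : ℕ → ℝ := fun j => Pool.Agent.W529.ST.mean F (fun v => mix j (Φ (lab v)) (x j v)) N
    have hH0 : H 0 = Pool.Agent.W529.ST.mean F
        (fun v => Φ (lab v) (fun i => a (f i) (d i) v)) N := by
      have h1 : ∀ v, mix 0 (Φ (lab v)) (x 0 v) = Φ (lab v) (fun i => a (f i) (d i) v) := by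
        intro v
        rw [mix_zero]
        congr 1
      simp only [H, h1]
    have hHR : H (R + 1) = Pool.Agent.W529.ST.mean F
        (fun v => sym (Φ (lab v)) (fun i => a (f i) 1 v)) N := by
      have h1 : ∀ v, mix (R + 1) (Φ (lab v)) (x (R + 1) v) =
          sym (Φ (lab v)) (fun i => a (f i) 1 v) := by
        intro v
        rw [mix_last]
        congr 1
        funext i
        exact if_pos i.2
      simp only [H, h1]
    have c1 := hclose d (Finset.mem_insert_of_mem hdTT)
      (fun v => Φ (lab v) (fun i => a (f i) (d i) v)) (fun v => (hΦ _).1 _)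
    have c2 := hclose (fun _ => 1) (Finset.mem_insert_self _ _)
      (fun v => sym (Φ (lab v)) (fun i => a (f i) 1 v)) (fun v => by
        rw [← mix_last]
        exact mix_abs _ (hΦ _).1 _)
    rw [← hH0] at c1
    rw [← hHR] at c2
    have e2 : 1 / ((n : ℝ) + 1) ≤ 1 / (n : ℝ) - 2 * δ := by
      rw [hδ]
      have h3 : 1 / (n : ℝ) - 1 / ((n : ℝ) + 1) = 1 / ((n : ℝ) * (n + 1)) := by
        field_simp
        ring
      have h4 : 2 * (1 / (2 * ((n : ℝ) + 1) ^ 2)) ≤ 1 / ((n : ℝ) * (n + 1)) := by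
        rw [← mul_div_assoc, mul_one, div_le_div_iff₀ (by positivity) (by positivity)]
        nlinarith
      linarith
    have hHH : 1 / ((n : ℝ) + 1) ≤ |H 0 - H (R + 1)| := by
      refine e2.trans ?_
      have d1 := abs_le.1 c1
      have d2 := abs_le.1 c2
      rcases le_abs.1 hge with h6 | h6
      · refine le_trans ?_ (le_abs_self _)
        linarith [d1.1, d1.2, d2.1, d2.2]
      · refine le_trans ?_ (neg_le_abs _)
        linarith [d1.1, d1.2, d2.1, d2.2]
    obtain ⟨j, hj⟩ : ∃ j : Fin (R + 1), 1 / (k : ℝ) ≤ |H j - H (j + 1)| := by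
      by_contra hno
      push Not at hno
      have hind : ∀ j : ℕ, j ≤ R → |H 0 - H (j + 1)| < ((j : ℝ) + 1) * (1 / k) := by
        intro j
        induction j with
        | zero =>
          intro _
          have := hno 0
          simpa using this
        | succ j ih =>
          intro hjR
          have h1 := ih (by omega)
          have h2 := hno ⟨j + 1, by omega⟩
          simp only at h2
          have h3 : H 0 - H (j + 1 + 1) = (H 0 - H (j + 1)) + (H (j + 1) - H (j + 1 + 1)) := by ring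
          rw [h3]
          refine (abs_add_le _ _).trans_lt ?_
          push_cast
          linarith
      have h1 := hind R le_rfl
      have h2 : ((R : ℝ) + 1) * (1 / k) = 1 / ((n : ℝ) + 1) := by
        rw [hk]
        push_cast
        field_simp
      rw [h2] at h1
      linarith
    have hx1 : ∀ v, x (j + 1) v = w j d v := by
      intro v
      funext i
      have h1 : ((i : ℕ) < (j : ℕ) + 1) ↔ i ≤ j := by
        rw [Fin.le_def]
        omega
      simp only [x, w, h1]
    have hx0 : ∀ v, x j v = Function.update (w j d v) j (a (f j) (d j) v) := by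
      intro v
      funext i
      by_cases h : i = j
      · subst h
        simp [x]
      · rw [Function.update_of_ne h]
        have h3 : (i : ℕ) ≠ j := fun h4 => h (Fin.ext h4)
        have h1 : ((i : ℕ) < (j : ℕ)) ↔ i ≤ j := by
          rw [Fin.le_def]
          omega
        simp only [x, w, h1]
    refine Finset.mem_coe.2 (Finset.mem_biUnion.2 ⟨j, Finset.mem_univ _, ?_⟩)
    refine Finset.mem_filter.2 ⟨hdTT, fun p => mix j (Φ p.2) p.1, fun p => mix_abs _ (hΦ _).1 _,
      ?_, ?_⟩
    · let inBox : X → Prop := fun p => ∀ i l, 1 ≤ l → l ≤ m → |p.1 i l| ≤ B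
      let r : Fin ν → ℝ := fun c =>
        if h : ∃ p, inBox p ∧ κ p = c then mix j (Φ h.choose.2) h.choose.1 else 0
      have hr : ∀ p, inBox p → |mix j (Φ p.2) p.1 - r (κ p)| ≤ 1 / (4 * k) := by
        intro p hp
        have hex : ∃ p', inBox p' ∧ κ p' = κ p := ⟨p, hp, rfl⟩
        have e1 : r (κ p) = mix j (Φ hex.choose.2) hex.choose.1 := dif_pos hex
        obtain ⟨hb, hκ⟩ := hex.choose_spec
        rw [e1]
        set p' := hex.choose with hp'
        have h3 : ((fun i => cell m k G B (p'.1 i), p'.2) : Y) =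
            (fun i => cell m k G B (p.1 i), p.2) := e.injective hκ
        have h4 := congrArg Prod.fst h3
        have h5 := congrArg Prod.snd h3
        simp only at h4 h5
        rw [h5]
        refine (mix_test j m (hΦ p.2)).2 _ _ _ (by positivity) fun i l hl hlm => ?_
        exact cell_close hk1 hGB (hp i) (hb i) (congrFun h4 i).symm l hl hlm
      refine ⟨r, fun c => ?_, fun v hv => ?_⟩
      · simp only [r]
        split_ifs with h
        · exact mix_abs _ (hΦ _).1 _
        · simp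
      · have hw : ∀ i l, 1 ≤ l → l ≤ m → |w j d v i l| ≤ B := by
          intro i l hl hlm
          simp only [w]
          split_ifs
          · exact hbox1 v hv i l hl hlm
          · exact hboxd v hv _ (hdT i) i l hl hlm
        refine ⟨hr (w j d v, lab v) hw, hr (Function.update (w j d v) j (refl (w j d v j)), lab v)
          fun i l hl hlm => ?_⟩
        simp only
        by_cases h : i = j
        · subst h
          rw [Function.update_self, refl_abs]
          exact hw i l hl hlm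
        · rw [Function.update_of_ne h]
          exact hw i l hl hlm
    · have h1 : Pool.Agent.W529.ST.mean F (fun v =>
          mix j (Φ (lab v)) (Function.update (w j d v) j (a (f j) (d j) v))) N = H j := by
        simp only [H, hx0]
      have h2 : Pool.Agent.W529.ST.mean F (fun v => (mix j (Φ (lab v)) (w j d v) +
          mix j (Φ (lab v)) (Function.update (w j d v) j (refl (w j d v j)))) / 2) N =
          H (j + 1) := by
        simp only [H, hx1, mix_step]
      simp only
      rw [h1, h2]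
      exact hj
  refine (Set.ncard_le_ncard hmain (Finset.finite_toSet _)).trans ?_
  rw [Set.ncard_coe_finset]
  refine Finset.card_biUnion_le.trans ?_
  refine (Finset.sum_le_sum fun j _ => hS j).trans ?_
  rw [Finset.sum_const, Finset.card_univ, Fintype.card_fin, smul_eq_mul, hν', hG]
  refine le_of_eq ?_
  ring

end Pool.Agent.Results.MP_753a9c_nt.TwistLaws
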